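import Mathlib

namespace Pool.Agent.N428.Per

open Finset

section alg

variable {ι : Type*} [DecidableEq ι] {F : Type*} [Field F]

/-- Multiplication by the linear form `ℓ` in the algebra `F[x_i] / (x_i ^ 2)`; an element is given by
its coefficients at the squarefree monomials `x^S`. -/
def mulL (l : ι → F) (f : Finset ι → F) : Finset ι → F := fun S => ∑ i ∈ S, l i * f (S.erase i)

lemma mulL_apply (l : ι → F) (f : Finset ι → F) (S : Finset ι) :
    mulL l f S = ∑ i ∈ S, l i * f (S.erase i) := rfl

lemma mulL_add (l m : ι → F) (f : Finset ι → F) : mulL (l + m) f = mulL l f + mulL m f := by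
  funext S
  simp only [mulL_apply, Pi.add_apply, add_mul, Finset.sum_add_distrib]

lemma mulL_sub (l m : ι → F) (f : Finset ι → F) : mulL (l - m) f = mulL l f - mulL m f := by
  funext S
  simp only [mulL_apply, Pi.sub_apply, sub_mul, Finset.sum_sub_distrib]

lemma mulL_smul (t : F) (l : ι → F) (f : Finset ι → F) : mulL (t • l) f = t • mulL l f := by
  funext S
  simp only [mulL_apply, Pi.smul_apply, smul_eq_mul, Finset.mul_sum, mul_assoc]

lemma mulL_add_right (l : ι → F) (f g : Finset ι → F) :
    mulL l (f + g) = mulL l f + mulL l g := by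
  funext S
  simp only [mulL_apply, Pi.add_apply, mul_add, Finset.sum_add_distrib]

lemma mulL_smul_right (t : F) (l : ι → F) (f : Finset ι → F) :
    mulL l (t • f) = t • mulL l f := by
  funext S
  simp only [mulL_apply, Pi.smul_apply, smul_eq_mul, Finset.mul_sum]
  refine Finset.sum_congr rfl (fun i _ => ?_)
  ring

lemma mulL_zero_right (l : ι → F) : mulL l (0 : Finset ι → F) = 0 := by
  funext S
  simp [mulL_apply]

lemma mulL_zero_left (f : Finset ι → F) : mulL (0 : ι → F) f = 0 := by
  funext S
  simp [mulL_apply]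

lemma mulL_comm (l m : ι → F) (f : Finset ι → F) : mulL l (mulL m f) = mulL m (mulL l f) := by
  funext S
  simp only [mulL_apply, Finset.mul_sum]
  rw [Finset.sum_comm' (t' := S) (s' := fun j => S.erase j)]
  · refine Finset.sum_congr rfl (fun j _ => Finset.sum_congr rfl (fun i _ => ?_))
    rw [Finset.erase_right_comm]
    ring
  · intro i j
    simp only [Finset.mem_erase]
    constructor
    · rintro ⟨h1, h2, h3⟩
      exact ⟨⟨h2.symm, h1⟩, h3⟩
    · rintro ⟨⟨h1, h2⟩, h3⟩
      exact ⟨h2, h1.symm, h3⟩

lemma mulL_single (a : ι) (f : Finset ι → F) (S : Finset ι) :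
    mulL (Pi.single a 1) f S = if a ∈ S then f (S.erase a) else 0 := by
  rw [mulL_apply]
  by_cases h : a ∈ S
  · rw [if_pos h, Finset.sum_eq_single a]
    · simp
    · intro b _ hb
      simp [hb]
    · intro h'
      exact absurd h h'
  · rw [if_neg h]
    refine Finset.sum_eq_zero (fun i hi => ?_)
    have : i ≠ a := fun e => h (e ▸ hi)
    simp [this]

lemma mulL_single_sq (a : ι) (f : Finset ι → F) :
    mulL (Pi.single a 1) (mulL (Pi.single a 1) f) = 0 := by
  funext S
  rw [mulL_single]
  split_ifs with h
  · rw [mulL_single]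
    simp
  · rfl

/-- homogeneous of degree `k` -/
def Hom (k : ℕ) (f : Finset ι → F) : Prop := ∀ S : Finset ι, S.card ≠ k → f S = 0

lemma Hom.mulL {k : ℕ} {f : Finset ι → F} (hf : Hom k f) (l : ι → F) : Hom (k + 1) (mulL l f) := by
  intro S hS
  rw [mulL_apply]
  refine Finset.sum_eq_zero (fun i hi => ?_)
  rw [hf, mul_zero]
  intro h
  rw [Finset.card_erase_of_mem hi] at h
  have : 0 < S.card := Finset.card_pos.2 ⟨i, hi⟩
  omega

/-- the unit of the algebra -/
def unit : Finset ι → F := fun S => if S = ∅ then 1 else 0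

lemma hom_unit : Hom 0 (unit : Finset ι → F) := by
  intro S hS
  unfold unit
  rw [if_neg]
  intro h
  exact hS (by rw [h]; simp)

lemma unit_ne_zero : (unit : Finset ι → F) ≠ 0 := by
  intro h
  have := congrFun h ∅
  simp [unit] at this

omit [DecidableEq ι] in
lemma Hom.exists_ne {k : ℕ} {f : Finset ι → F} (hf : Hom k f) (h : f ≠ 0) :
    ∃ T : Finset ι, T.card = k ∧ f T ≠ 0 := by
  by_contra hcon
  push Not at hcon
  apply h
  funext S
  by_cases hS : S.card = k
  · exact hcon S hS
  · exact hf S hS

end alg

section finite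

variable {ι : Type*} [DecidableEq ι] [Fintype ι] {F : Type*} [Field F] [Fintype F] [DecidableEq F]

/-- the annihilator of `f` among the linear forms -/
def ann (f : Finset ι → F) : Finset (ι → F) := Finset.univ.filter (fun l => mulL l f = 0)

lemma mem_ann {f : Finset ι → F} {l : ι → F} : l ∈ ann f ↔ mulL l f = 0 := by
  simp [ann]

lemma sum_sub_const {M : Type*} [AddCommMonoid M] (g : (ι → F) → M) (c : ι → F) :
    ∑ v, g (v - c) = ∑ v, g v :=
  Fintype.sum_equiv (Equiv.subRight c) _ _ (fun _ => rfl)

lemma sum_add_const {M : Type*} [AddCommMonoid M] (g : (ι → F) → M) (c : ι → F) :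
    ∑ v, g (v + c) = ∑ v, g v :=
  Fintype.sum_equiv (Equiv.addRight c) _ _ (fun _ => rfl)

/-- averaging over lines -/
lemma card_line (P : (ι → F) → Prop) [DecidablePred P] (v0 : ι → F) :
    Fintype.card F * (Finset.univ.filter P).card =
      ∑ v : ι → F, (Finset.univ.filter (fun t : F => P (v + t • v0))).card := by
  simp only [Finset.card_filter]
  rw [Finset.sum_comm]
  have : ∀ t : F, ∑ v : ι → F, (if P (v + t • v0) then 1 else 0) =
      ∑ v : ι → F, (if P v then 1 else 0) := by
    intro t
    exact sum_add_const (fun v => if P v then 1 else 0) (t • v0)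
  rw [Finset.sum_congr rfl (fun t _ => this t), Finset.sum_const, Finset.card_univ, smul_eq_mul]

lemma card_roots_le (a b c : F) (ha : a ≠ 0) :
    (Finset.univ.filter (fun t : F => a * t ^ 2 + b * t + c = 0)).card ≤ 2 := by
  classical
  open Polynomial in
  have hdeg : (C a * X ^ 2 + C b * X + C c : F[X]).natDegree = 2 := natDegree_quadratic ha
  open Polynomial in
  have hne : (C a * X ^ 2 + C b * X + C c : F[X]) ≠ 0 := by
    intro h
    rw [h] at hdeg
    simp at hdeg
  open Polynomial in
  have hsub : (Finset.univ.filter (fun t : F => a * t ^ 2 + b * t + c = 0)) ⊆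
      (C a * X ^ 2 + C b * X + C c : F[X]).roots.toFinset := by
    intro t ht
    rw [Finset.mem_filter] at ht
    rw [Multiset.mem_toFinset, mem_roots hne]
    simp only [IsRoot.def, eval_add, eval_mul, eval_C, eval_pow, eval_X]
    exact ht.2
  refine (Finset.card_le_card hsub).trans ?_
  refine (Multiset.toFinset_card_le _).trans ?_
  exact (Polynomial.card_roots' _).trans hdeg.le

/-- The zeros of the quadratic form `v ↦ (v v f)(U)` are at most a proportion `2 / q`. -/
lemma card_zero_le {k : ℕ} {f : Finset ι → F} (hf : Hom k f) (hf0 : f ≠ 0)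
    (h2 : (2 : F) ≠ 0) (hk : k + 2 ≤ Fintype.card ι) :
    ∃ U : Finset ι, Fintype.card F *
      (Finset.univ.filter (fun v : ι → F => mulL v (mulL v f) U = 0)).card ≤
        2 * Fintype.card (ι → F) := by
  obtain ⟨T, hT, hfT⟩ := hf.exists_ne hf0
  have hcompl : 1 < (Tᶜ).card := by
    rw [Finset.card_compl]
    omega
  obtain ⟨i, hi, j, hj, hij⟩ := Finset.one_lt_card.1 hcompl
  rw [Finset.mem_compl] at hi hj
  set U : Finset ι := insert i (insert j T) with hU
  refine ⟨U, ?_⟩
  set v0 : ι → F := Pi.single i 1 + Pi.single j 1 with hv0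
  have hB : ∀ v w : ι → F, ∀ t : F, mulL (v + t • w) (mulL (v + t • w) f) U =
      mulL w (mulL w f) U * t ^ 2 + (2 * mulL w (mulL v f) U) * t + mulL v (mulL v f) U := by
    intro v w t
    rw [mulL_add v (t • w) f, mulL_add, mulL_add_right, mulL_add_right, mulL_smul, mulL_smul,
      mulL_smul, mulL_smul_right, mulL_smul_right, mulL_comm v w f]
    simp only [Pi.add_apply, Pi.smul_apply, smul_eq_mul]
    ring
  have hQ0 : mulL v0 (mulL v0 f) U ≠ 0 := by
    have h1 : mulL v0 (mulL v0 f) U = 2 * f T := by
      rw [hv0, mulL_add (Pi.single i 1) (Pi.single j 1) f, mulL_add, mulL_add_right,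
        mulL_add_right, mulL_single_sq, mulL_single_sq, mulL_comm (Pi.single j 1) (Pi.single i 1) f]
      have h3 : mulL (Pi.single i 1) (mulL (Pi.single j 1) f) U = f T := by
        rw [mulL_single, if_pos (by simp [hU]), mulL_single]
        have hne : i ∉ insert j T := by
          simp [hij, hi]
        rw [hU, Finset.erase_insert hne, if_pos (by simp), Finset.erase_insert hj]
      simp only [Pi.add_apply, Pi.zero_apply, h3]
      ring
    rw [h1]
    exact mul_ne_zero h2 hfT
  rw [card_line (fun v : ι → F => mulL v (mulL v f) U = 0) v0]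
  calc ∑ v : ι → F, (Finset.univ.filter
        (fun t : F => mulL (v + t • v0) (mulL (v + t • v0) f) U = 0)).card
      ≤ ∑ _v : ι → F, 2 := by
        refine Finset.sum_le_sum (fun v _ => ?_)
        have := card_roots_le (mulL v0 (mulL v0 f) U) (2 * mulL v0 (mulL v f) U)
          (mulL v (mulL v f) U) hQ0
        refine le_trans (le_of_eq ?_) this
        congr 1
        ext t
        simp only [Finset.mem_filter, Finset.mem_univ, true_and]
        rw [hB v v0 t]
    _ = 2 * Fintype.card (ι → F) := by
        rw [Finset.sum_const, Finset.card_univ, smul_eq_mul, mul_comm]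

/-- the pairs of variables that are congruent modulo the annihilator of `f` -/
def pairs (f : Finset ι → F) : Finset (ι × ι) :=
  Finset.univ.filter (fun p => mulL (Pi.single p.1 1 - Pi.single p.2 1) f = 0)

/-- the number of the variables in the class of `v` -/
def hcount (f : Finset ι → F) (v : ι → F) : ℕ :=
  (Finset.univ.filter (fun a : ι => mulL (v - Pi.single a 1) f = 0)).card

lemma sum_hcount (f : Finset ι → F) :
    ∑ v : ι → F, hcount f v = Fintype.card ι * (ann f).card := by
  simp only [hcount, Finset.card_filter]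
  rw [Finset.sum_comm]
  have : ∀ a : ι, ∑ v : ι → F, (if mulL (v - Pi.single a 1) f = 0 then 1 else 0) =
      (ann f).card := by
    intro a
    rw [sum_sub_const (fun v => if mulL v f = 0 then 1 else 0) (Pi.single a 1)]
    rw [ann, Finset.card_filter]
  rw [Finset.sum_congr rfl (fun a _ => this a), Finset.sum_const, Finset.card_univ, smul_eq_mul]

lemma sum_hcount_sq (f : Finset ι → F) :
    ∑ v : ι → F, hcount f v ^ 2 = (pairs f).card * (ann f).card := by
  have h1 : ∀ v : ι → F, hcount f v ^ 2 = ∑ p : ι × ι,
      (if mulL (v - Pi.single p.1 1) f = 0 then 1 else 0) *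
        (if mulL (v - Pi.single p.2 1) f = 0 then 1 else 0) := by
    intro v
    rw [hcount, Finset.card_filter, sq, Finset.sum_mul_sum, Fintype.sum_prod_type]
  rw [Finset.sum_congr rfl (fun v _ => h1 v), Finset.sum_comm]
  have h2 : ∀ p : ι × ι, ∑ v : ι → F, ((if mulL (v - Pi.single p.1 1) f = 0 then 1 else 0) *
        (if mulL (v - Pi.single p.2 1) f = 0 then 1 else 0)) =
      (if mulL (Pi.single p.1 1 - Pi.single p.2 1) f = 0 then 1 else 0) * (ann f).card := by
    intro p
    by_cases hp : mulL (Pi.single p.1 1 - Pi.single p.2 1) f = 0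
    · rw [if_pos hp, one_mul]
      have : ∀ v : ι → F, ((if mulL (v - Pi.single p.1 1) f = 0 then 1 else 0) *
          (if mulL (v - Pi.single p.2 1) f = 0 then 1 else 0)) =
          (if mulL (v - Pi.single p.1 1) f = 0 then 1 else 0) := by
        intro v
        have e : mulL (v - Pi.single p.2 1) f = mulL (v - Pi.single p.1 1) f := by
          have : v - Pi.single p.2 1 = (v - Pi.single p.1 1) +
              (Pi.single p.1 1 - Pi.single p.2 1) := by abel
          rw [this, mulL_add, hp, add_zero]
        rw [e]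
        split_ifs <;> rfl
      rw [Finset.sum_congr rfl (fun v _ => this v),
        sum_sub_const (fun v => if mulL v f = 0 then 1 else 0) (Pi.single p.1 1),
        ann, Finset.card_filter]
    · rw [if_neg hp, zero_mul]
      refine Finset.sum_eq_zero (fun v _ => ?_)
      by_cases h1 : mulL (v - Pi.single p.1 1) f = 0
      · rw [if_neg (c := mulL (v - Pi.single p.2 1) f = 0), mul_zero]
        intro h2
        apply hp
        have : (Pi.single p.1 1 - Pi.single p.2 1 : ι → F) =
            (v - Pi.single p.2 1) - (v - Pi.single p.1 1) := by abel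
        rw [this, mulL_sub, h1, h2, sub_zero]
      · rw [if_neg h1, zero_mul]
  rw [Finset.sum_congr rfl (fun p _ => h2 p), ← Finset.sum_mul, pairs, Finset.card_filter]

/-- The main inequality. -/
lemma main_ineq {k : ℕ} {f : Finset ι → F} (hf : Hom k f) (hf0 : f ≠ 0)
    (h2 : (2 : F) ≠ 0) (hk : k + 2 ≤ Fintype.card ι) :
    Fintype.card ι ^ 2 * Fintype.card F * (ann f).card ≤
      2 * Fintype.card (ι → F) * (pairs f).card := by
  obtain ⟨U, hU⟩ := card_zero_le hf hf0 h2 hk
  set Z := Finset.univ.filter (fun v : ι → F => mulL v (mulL v f) U = 0) with hZ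
  have hsupp : ∀ v : ι → F, v ∉ Z → hcount f v = 0 := by
    intro v hv
    rw [hcount, Finset.card_eq_zero, Finset.filter_eq_empty_iff]
    intro a _ ha
    apply hv
    rw [hZ, Finset.mem_filter]
    refine ⟨Finset.mem_univ _, ?_⟩
    have e1 : mulL v f = mulL (Pi.single a 1) f := by
      rw [mulL_sub] at ha
      exact sub_eq_zero.1 ha
    rw [e1, mulL_comm, e1, mulL_single_sq]
    rfl
  have hsum : ∑ v ∈ Z, hcount f v = Fintype.card ι * (ann f).card := by
    rw [← sum_hcount]
    refine Finset.sum_subset (Finset.subset_univ _) (fun v _ hv => hsupp v hv)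
  have hsq : ∑ v ∈ Z, hcount f v ^ 2 ≤ (pairs f).card * (ann f).card := by
    rw [← sum_hcount_sq]
    exact Finset.sum_le_sum_of_subset (Finset.subset_univ _)
  have hcs : (∑ v ∈ Z, hcount f v) ^ 2 ≤ Z.card * ∑ v ∈ Z, hcount f v ^ 2 :=
    sq_sum_le_card_mul_sum_sq
  rw [hsum] at hcs
  have hpos : 0 < (ann f).card := Finset.card_pos.2 ⟨0, mem_ann.2 (mulL_zero_left f)⟩
  have h3 : (Fintype.card ι * (ann f).card) ^ 2 ≤ Z.card * ((pairs f).card * (ann f).card) :=
    hcs.trans (Nat.mul_le_mul_left _ hsq)
  have h4 : Fintype.card ι ^ 2 * (ann f).card ≤ Z.card * (pairs f).card := by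
    have : (Fintype.card ι ^ 2 * (ann f).card) * (ann f).card ≤
        (Z.card * (pairs f).card) * (ann f).card := by
      calc _ = (Fintype.card ι * (ann f).card) ^ 2 := by ring
        _ ≤ _ := h3
        _ = _ := by ring
    exact Nat.le_of_mul_le_mul_right this hpos
  calc Fintype.card ι ^ 2 * Fintype.card F * (ann f).card
      = Fintype.card F * (Fintype.card ι ^ 2 * (ann f).card) := by ring
    _ ≤ Fintype.card F * (Z.card * (pairs f).card) := Nat.mul_le_mul_left _ h4
    _ = (Fintype.card F * Z.card) * (pairs f).card := by ring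
    _ ≤ (2 * Fintype.card (ι → F)) * (pairs f).card := Nat.mul_le_mul_right _ hU

/-- the annihilator of a nonzero element of degree `k` has at most `q ^ k` elements -/
lemma card_ann_le {k : ℕ} {f : Finset ι → F} (hf : Hom k f) (hf0 : f ≠ 0) :
    (ann f).card ≤ Fintype.card F ^ k := by
  obtain ⟨T, hT, hfT⟩ := hf.exists_ne hf0
  have hcard : Fintype.card (T → F) = Fintype.card F ^ k := by
    rw [Fintype.card_fun, Fintype.card_coe, hT]
  rw [← hcard, ← Finset.card_univ]
  refine Finset.card_le_card_of_injOn (fun l : ι → F => fun i : T => l i)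
    (fun l _ => Finset.mem_coe.2 (Finset.mem_univ _)) ?_
  intro l hl m hm hlm
  have hl' := mem_ann.1 (Finset.mem_coe.1 hl)
  have hm' := mem_ann.1 (Finset.mem_coe.1 hm)
  have hd : mulL (l - m) f = 0 := by rw [mulL_sub, hl', hm', sub_zero]
  have hT0 : ∀ i ∈ T, (l - m) i = 0 := by
    intro i hi
    have := congrFun hlm ⟨i, hi⟩
    simp only at this
    simp [this]
  have hall : ∀ j, (l - m) j = 0 := by
    intro j
    by_cases hj : j ∈ T
    · exact hT0 j hj
    · have h1 := congrFun hd (insert j T)
      rw [mulL_apply, Finset.sum_insert hj, Finset.erase_insert hj] at h1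
      rw [Finset.sum_eq_zero, add_zero] at h1
      · rcases mul_eq_zero.1 h1 with h | h
        · exact h
        · exact absurd h hfT
      · intro i hi
        rw [hT0 i hi, zero_mul]
  funext j
  have := hall j
  simpa [sub_eq_zero] using this

end finite

end Pool.Agent.N428.Per
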