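import Mathlib
import Pool.Agent.N428.Per.Alg

namespace Pool.Agent.N428.Per

open Finset

section contr

variable {n : ℕ} {F : Type*} [Field F]

/-- The contraction `x_b ↦ - x_a`; the element `a` of `Fin n` stands for `b.succAbove a`. -/
def contr (b : Fin (n + 1)) (a : Fin n) (f : Finset (Fin (n + 1)) → F) : Finset (Fin n) → F :=
  fun S => f (S.map b.succAboveEmb) -
    if a ∈ S then f (insert b ((S.erase a).map b.succAboveEmb)) else 0

lemma not_mem_map (b : Fin (n + 1)) (S : Finset (Fin n)) : b ∉ S.map b.succAboveEmb := by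
  simp [Fin.succAbove_ne]

lemma exists_map {b : Fin (n + 1)} {U : Finset (Fin (n + 1))} (hb : b ∉ U) :
    ∃ T : Finset (Fin n), U = T.map b.succAboveEmb := by
  refine ⟨Finset.univ.filter (fun i => b.succAbove i ∈ U), ?_⟩
  ext x
  simp only [Finset.mem_map, Finset.mem_filter, Finset.mem_univ, true_and, Fin.succAboveEmb_apply]
  constructor
  · intro hx
    have hne : x ≠ b := fun e => hb (e ▸ hx)
    obtain ⟨i, hi⟩ := Fin.exists_succAbove_eq hne
    exact ⟨i, by rw [hi]; exact hx, hi⟩
  · rintro ⟨i, hi, rfl⟩
    exact hi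

lemma map_erase' (b : Fin (n + 1)) (a : Fin n) (S : Finset (Fin n)) :
    (S.map b.succAboveEmb).erase (b.succAbove a) = (S.erase a).map b.succAboveEmb := by
  rw [Finset.map_erase]
  rfl

lemma contr_unit (b : Fin (n + 1)) (a : Fin n) :
    contr b a (unit : Finset (Fin (n + 1)) → F) = unit := by
  funext S
  unfold contr unit
  have h2 : insert b ((S.erase a).map b.succAboveEmb) ≠ ∅ := Finset.insert_ne_empty _ _
  rw [if_neg h2]
  simp

lemma contr_mulL (b : Fin (n + 1)) (a : Fin n) (l : Fin (n + 1) → F)
    (f : Finset (Fin (n + 1)) → F) :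
    contr b a (mulL l f) =
      mulL (fun i => l (b.succAbove i) - (Pi.single a (l b) : Fin n → F) i) (contr b a f) := by
  funext S
  have e1 : mulL l f (S.map b.succAboveEmb) =
      ∑ i ∈ S, l (b.succAbove i) * f ((S.erase i).map b.succAboveEmb) := by
    rw [mulL_apply, Finset.sum_map]
    refine Finset.sum_congr rfl (fun i _ => ?_)
    rw [Fin.succAboveEmb_apply, map_erase']
  by_cases ha : a ∈ S
  · have e2 : mulL l f (insert b ((S.erase a).map b.succAboveEmb)) =
        l b * f ((S.erase a).map b.succAboveEmb) + ∑ i ∈ S.erase a, l (b.succAbove i) *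
          f (insert b (((S.erase a).erase i).map b.succAboveEmb)) := by
      rw [mulL_apply, Finset.sum_insert (not_mem_map b _), Finset.erase_insert (not_mem_map b _),
        Finset.sum_map]
      congr 1
      refine Finset.sum_congr rfl (fun i _ => ?_)
      rw [Fin.succAboveEmb_apply, Finset.erase_insert_of_ne (Fin.succAbove_ne b i).symm, map_erase']
    have e3 : mulL (fun i => l (b.succAbove i) - (Pi.single a (l b) : Fin n → F) i)
        (contr b a f) S = (l (b.succAbove a) - l b) * f ((S.erase a).map b.succAboveEmb) +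
        ∑ i ∈ S.erase a, l (b.succAbove i) * (f ((S.erase i).map b.succAboveEmb) -
          f (insert b (((S.erase a).erase i).map b.succAboveEmb))) := by
      rw [mulL_apply, ← Finset.add_sum_erase S _ ha]
      congr 1
      · unfold contr
        simp
      · refine Finset.sum_congr rfl (fun i hi => ?_)
        have hia : i ≠ a := Finset.ne_of_mem_erase hi
        have hai : a ∈ S.erase i := Finset.mem_erase.2 ⟨hia.symm, ha⟩
        unfold contr
        rw [if_pos hai, Pi.single_eq_of_ne hia, sub_zero, Finset.erase_right_comm]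
    rw [e3]
    show mulL l f (S.map b.succAboveEmb) -
      (if a ∈ S then mulL l f (insert b ((S.erase a).map b.succAboveEmb)) else 0) = _
    rw [if_pos ha, e1, e2, ← Finset.add_sum_erase S _ ha]
    simp only [mul_sub, Finset.sum_sub_distrib]
    ring
  · show mulL l f (S.map b.succAboveEmb) -
      (if a ∈ S then mulL l f (insert b ((S.erase a).map b.succAboveEmb)) else 0) = _
    rw [if_neg ha, sub_zero, e1, mulL_apply]
    refine Finset.sum_congr rfl (fun i hi => ?_)
    have hia : i ≠ a := fun e => ha (e ▸ hi)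
    have hai : a ∉ S.erase i := fun h => ha (Finset.mem_of_mem_erase h)
    unfold contr
    rw [if_neg hai, Pi.single_eq_of_ne hia, sub_zero, sub_zero]

lemma contr_eq_zero_iff (b : Fin (n + 1)) (a : Fin n) (f : Finset (Fin (n + 1)) → F) :
    contr b a f = 0 ↔ mulL (Pi.single (b.succAbove a) 1 - Pi.single b 1) f = 0 := by
  have hne : b.succAbove a ≠ b := Fin.succAbove_ne b a
  have key : ∀ U : Finset (Fin (n + 1)),
      mulL (Pi.single (b.succAbove a) 1 - Pi.single b 1) f U =
        (if b.succAbove a ∈ U then f (U.erase (b.succAbove a)) else 0) -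
          (if b ∈ U then f (U.erase b) else 0) := by
    intro U
    rw [mulL_sub, Pi.sub_apply, mulL_single, mulL_single]
  have hmem : ∀ T : Finset (Fin n), b.succAbove a ∈ T.map b.succAboveEmb ↔ a ∈ T := by
    intro T
    simp
  constructor
  · intro h
    have h' : ∀ T, contr b a f T = 0 := fun T => congrFun h T
    funext U
    rw [key, Pi.zero_apply]
    by_cases hb : b ∈ U
    · have hb' : b ∉ U.erase b := Finset.notMem_erase b U
      obtain ⟨T, hT⟩ := exists_map hb'
      rw [if_pos hb]
      by_cases ha : b.succAbove a ∈ U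
      · rw [if_pos ha]
        have haT : a ∈ T := by
          rw [← hmem, ← hT]
          exact Finset.mem_erase.2 ⟨hne, ha⟩
        have h1 := h' T
        unfold contr at h1
        rw [if_pos haT] at h1
        have h2 : U.erase (b.succAbove a) = insert b ((T.erase a).map b.succAboveEmb) := by
          rw [← map_erase', ← hT, ← Finset.erase_insert_of_ne hne.symm, Finset.insert_erase hb]
        rw [h2, hT]
        rw [sub_eq_zero] at h1 ⊢
        exact h1.symm
      · rw [if_neg ha]
        have haT : a ∉ T := by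
          rw [← hmem, ← hT]
          exact fun h => ha (Finset.mem_of_mem_erase h)
        have h1 := h' T
        unfold contr at h1
        rw [if_neg haT, sub_zero] at h1
        rw [hT, h1, sub_zero]
    · rw [if_neg hb, sub_zero]
      split_ifs with ha
      · have hb' : b ∉ U.erase (b.succAbove a) := fun h => hb (Finset.mem_of_mem_erase h)
        obtain ⟨T, hT⟩ := exists_map hb'
        have haT : a ∉ T := by
          rw [← hmem, ← hT]
          exact Finset.notMem_erase _ _
        have h1 := h' T
        unfold contr at h1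
        rw [if_neg haT, sub_zero] at h1
        rw [hT, h1]
      · rfl
  · intro h
    funext T
    rw [Pi.zero_apply]
    unfold contr
    by_cases haT : a ∈ T
    · rw [if_pos haT]
      have h1 := congrFun h (insert b (T.map b.succAboveEmb))
      rw [key, Pi.zero_apply, if_pos (Finset.mem_insert_of_mem ((hmem T).2 haT)),
        if_pos (Finset.mem_insert_self _ _), Finset.erase_insert_of_ne hne.symm, map_erase',
        Finset.erase_insert (not_mem_map b T)] at h1
      rw [sub_eq_zero] at h1 ⊢
      exact h1.symm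
    · rw [if_neg haT, sub_zero]
      have h1 := congrFun h (insert (b.succAbove a) (T.map b.succAboveEmb))
      have h2 : b ∉ insert (b.succAbove a) (T.map b.succAboveEmb) := by
        rw [Finset.mem_insert, not_or]
        exact ⟨hne.symm, not_mem_map b T⟩
      rw [key, Pi.zero_apply, if_pos (Finset.mem_insert_self _ _), if_neg h2, sub_zero,
        Finset.erase_insert (fun h3 => haT ((hmem T).1 h3))] at h1
      exact h1

variable [Fintype F]

lemma sum_contr (b : Fin (n + 1)) (a : Fin n) (G : (Fin n → F) → ℝ) :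
    ∑ l : Fin (n + 1) → F, G (fun i => l (b.succAbove i) - (Pi.single a (l b) : Fin n → F) i) =
      Fintype.card F * ∑ l : Fin n → F, G l := by
  rw [← (Fin.insertNthEquiv (fun _ => F) b).sum_comp, Fintype.sum_prod_type]
  have : ∀ x : F, ∑ l : Fin n → F, G (fun i =>
      (Fin.insertNthEquiv (fun _ => F) b) (x, l) (b.succAbove i) -
        (Pi.single a ((Fin.insertNthEquiv (fun _ => F) b) (x, l) b) : Fin n → F) i) =
      ∑ l : Fin n → F, G l := by
    intro x
    rw [← Fintype.sum_equiv (Equiv.subRight (Pi.single a x : Fin n → F))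
      (fun l => G (l - Pi.single a x)) G (fun _ => rfl)]
    refine Finset.sum_congr rfl (fun l _ => ?_)
    congr 1
    funext i
    simp
  rw [Finset.sum_congr rfl (fun x _ => this x), Finset.sum_const, Finset.card_univ, nsmul_eq_mul]

end contr

section expectation

variable {F : Type*} [Field F] [Fintype F] [DecidableEq F]

/-- the expectation of `g` of the product of `k` random linear forms in `n` variables -/
noncomputable def E (n : ℕ) : ℕ → ((Finset (Fin n) → F) → ℝ) → ℝ
  | 0, g => g unit
  | k + 1, g => E n k (fun f => (∑ l : Fin n → F, g (mulL l f)) / (Fintype.card F : ℝ) ^ n)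

lemma qpos : 0 < (Fintype.card F : ℝ) := by
  exact_mod_cast Fintype.card_pos

lemma E_mono {n k : ℕ} {g h : (Finset (Fin n) → F) → ℝ} (H : ∀ f, Hom k f → g f ≤ h f) :
    E n k g ≤ E n k h := by
  induction k generalizing g h with
  | zero => exact H _ hom_unit
  | succ k ih =>
    apply ih
    intro f hf
    have := (qpos (F := F))
    apply div_le_div_of_nonneg_right _ (by positivity)
    exact Finset.sum_le_sum (fun l _ => H _ (hf.mulL l))

lemma E_congr {n k : ℕ} {g h : (Finset (Fin n) → F) → ℝ} (H : ∀ f, Hom k f → g f = h f) :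
    E n k g = E n k h :=
  le_antisymm (E_mono (fun f hf => (H f hf).le)) (E_mono (fun f hf => (H f hf).ge))

lemma E_add {n k : ℕ} (g h : (Finset (Fin n) → F) → ℝ) :
    E n k (fun f => g f + h f) = E n k g + E n k h := by
  induction k generalizing g h with
  | zero => rfl
  | succ k ih =>
    show E n k _ = E n k _ + E n k _
    rw [← ih]
    congr 1
    funext f
    rw [Finset.sum_add_distrib, add_div]

lemma E_mul {n k : ℕ} (c : ℝ) (g : (Finset (Fin n) → F) → ℝ) :
    E n k (fun f => c * g f) = c * E n k g := by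
  induction k generalizing g with
  | zero => rfl
  | succ k ih =>
    show E n k _ = c * E n k _
    rw [← ih]
    congr 1
    funext f
    rw [← Finset.mul_sum, mul_div_assoc]

lemma E_const {n k : ℕ} (c : ℝ) : E n k (fun _ : Finset (Fin n) → F => c) = c := by
  induction k with
  | zero => rfl
  | succ k ih =>
    show E n k _ = c
    have hq := (qpos (F := F))
    have : (fun _ : Finset (Fin n) → F => (∑ _l : Fin n → F, c) / (Fintype.card F : ℝ) ^ n) =
        fun _ => c := by
      funext f
      rw [Finset.sum_const, Finset.card_univ, Fintype.card_fun, Fintype.card_fin, nsmul_eq_mul]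
      push_cast
      field_simp
    rw [this, ih]

lemma E_sum {n k : ℕ} {α : Type*} (s : Finset α) (g : α → (Finset (Fin n) → F) → ℝ) :
    E n k (fun f => ∑ a ∈ s, g a f) = ∑ a ∈ s, E n k (g a) := by
  classical
  induction s using Finset.induction_on with
  | empty => simpa using E_const (F := F) (n := n) (k := k) 0
  | insert a s ha ih =>
    rw [Finset.sum_insert ha, ← ih, ← E_add]
    congr 1
    funext f
    rw [Finset.sum_insert ha]

lemma E_contr {n k : ℕ} (b : Fin (n + 1)) (a : Fin n) (g : (Finset (Fin n) → F) → ℝ) :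
    E (n + 1) k (fun f => g (contr b a f)) = E n k g := by
  induction k generalizing g with
  | zero =>
    show g (contr b a unit) = g unit
    rw [contr_unit]
  | succ k ih =>
    show E (n + 1) k _ = E n k _
    rw [← ih]
    congr 1
    funext f
    simp only [contr_mulL]
    rw [sum_contr b a (fun l => g (mulL l (contr b a f)))]
    have hq := (qpos (F := F))
    rw [pow_succ]
    field_simp

/-- the probability that the product of `k` random linear forms in `n` variables vanishes -/
noncomputable def z (F : Type*) [Field F] [Fintype F] [DecidableEq F] (n k : ℕ) : ℝ :=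
  E n k (fun f : Finset (Fin n) → F => if f = 0 then 1 else 0)

lemma z_zero (n : ℕ) : z F n 0 = 0 := by
  show (if (unit : Finset (Fin n) → F) = 0 then (1 : ℝ) else 0) = 0
  rw [if_neg unit_ne_zero]

lemma z_succ (n k : ℕ) : z F n (k + 1) =
    E n k (fun f : Finset (Fin n) → F => ((ann f).card : ℝ) / (Fintype.card F : ℝ) ^ n) := by
  show E n k _ = _
  congr 1
  funext f
  rw [ann, Finset.card_filter]
  push_cast
  rfl

lemma z_nonneg (n k : ℕ) : 0 ≤ z F n k := by
  rw [← E_const (F := F) (n := n) (k := k) 0]
  apply E_mono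
  intro f _
  split_ifs <;> norm_num

lemma z_le_one (n k : ℕ) : z F n k ≤ 1 := by
  rw [← E_const (F := F) (n := n) (k := k) 1]
  apply E_mono
  intro f _
  split_ifs <;> norm_num

lemma card_ann_zero (n : ℕ) : ((ann (0 : Finset (Fin n) → F)).card : ℝ) =
    (Fintype.card F : ℝ) ^ n := by
  have : ann (0 : Finset (Fin n) → F) = Finset.univ := by
    rw [ann, Finset.filter_eq_self]
    intro l _
    exact mulL_zero_right l
  rw [this, Finset.card_univ, Fintype.card_fun, Fintype.card_fin]
  push_cast
  rfl

lemma z_step (n k : ℕ) : z F n (k + 1) ≤ z F n k + (Fintype.card F : ℝ) ^ k / (Fintype.card F : ℝ) ^ n := by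
  rw [z_succ, z, ← E_const (F := F) (n := n) (k := k)
    ((Fintype.card F : ℝ) ^ k / (Fintype.card F : ℝ) ^ n), ← E_add]
  apply E_mono
  intro f hf
  have hq := (qpos (F := F))
  by_cases h0 : f = 0
  · rw [if_pos h0, h0, card_ann_zero, div_self (by positivity)]
    have : 0 ≤ (Fintype.card F : ℝ) ^ k / (Fintype.card F : ℝ) ^ n := by positivity
    linarith
  · rw [if_neg h0, zero_add]
    apply div_le_div_of_nonneg_right _ (by positivity)
    exact_mod_cast card_ann_le hf h0

lemma z_bound (h3 : 2 ≤ (Fintype.card F : ℝ)) (n k : ℕ) :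
    z F n k ≤ (Fintype.card F : ℝ) ^ k / (Fintype.card F : ℝ) ^ n := by
  have hq := (qpos (F := F))
  induction k with
  | zero => rw [z_zero]; positivity
  | succ k ih =>
    refine (z_step n k).trans ?_
    have e : (Fintype.card F : ℝ) ^ (k + 1) / (Fintype.card F : ℝ) ^ n =
        (Fintype.card F : ℝ) * ((Fintype.card F : ℝ) ^ k / (Fintype.card F : ℝ) ^ n) := by
      rw [pow_succ]; ring
    rw [e]
    have hp : 0 ≤ (Fintype.card F : ℝ) ^ k / (Fintype.card F : ℝ) ^ n := by positivity
    nlinarith

lemma E_pair {n k : ℕ} {a b : Fin (n + 1)} (hab : a ≠ b) :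
    E (n + 1) k (fun f : Finset (Fin (n + 1)) → F =>
      if mulL (Pi.single a 1 - Pi.single b 1) f = 0 then (1 : ℝ) else 0) = z F n k := by
  obtain ⟨a', rfl⟩ := Fin.exists_succAbove_eq hab
  rw [z, ← E_contr b a']
  congr 1
  funext f
  have := contr_eq_zero_iff b a' f
  by_cases h : contr b a' f = 0
  · rw [if_pos h, if_pos (this.1 h)]
  · rw [if_neg h, if_neg (fun h' => h (this.2 h'))]

lemma E_pairs (n k : ℕ) :
    E (n + 1) k (fun f : Finset (Fin (n + 1)) → F => ((pairs f).card : ℝ)) =
      (n + 1) + (n + 1) * n * z F n k := by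
  have e1 : (fun f : Finset (Fin (n + 1)) → F => ((pairs f).card : ℝ)) =
      fun f => ∑ p : Fin (n + 1) × Fin (n + 1),
        if mulL (Pi.single p.1 1 - Pi.single p.2 1) f = 0 then (1 : ℝ) else 0 := by
    funext f
    rw [pairs, Finset.card_filter]
    push_cast
    rfl
  rw [e1, E_sum]
  have e2 : ∀ p : Fin (n + 1) × Fin (n + 1), E (n + 1) k (fun f : Finset (Fin (n + 1)) → F =>
      if mulL (Pi.single p.1 1 - Pi.single p.2 1) f = 0 then (1 : ℝ) else 0) =
      (if p.1 = p.2 then (1 - z F n k) else 0) + z F n k := by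
    intro p
    by_cases hp : p.1 = p.2
    · rw [if_pos hp]
      have : (fun f : Finset (Fin (n + 1)) → F =>
        if mulL (Pi.single p.1 1 - Pi.single p.2 1) f = 0 then (1 : ℝ) else 0) = fun _ => 1 := by
        funext f
        rw [hp, sub_self, mulL_zero_left, if_pos rfl]
      rw [this, E_const]
      ring
    · rw [if_neg hp, E_pair hp, zero_add]
  rw [Finset.sum_congr rfl (fun p _ => e2 p), Finset.sum_add_distrib, Fintype.sum_prod_type]
  simp only [Finset.sum_ite_eq, Finset.mem_univ, if_true, Finset.sum_const, Finset.card_univ,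
    Fintype.card_fin, Fintype.card_prod, nsmul_eq_mul]
  push_cast
  ring

/-- The recursion. -/
lemma z_rec (h2 : (2 : F) ≠ 0) (n k : ℕ) (hk : k + 1 ≤ n) :
    (Fintype.card F / 2 : ℝ) * z F (n + 1) (k + 1) ≤
      (Fintype.card F / 2 - 1 : ℝ) * z F (n + 1) k + z F n k + 1 / (n + 1) := by
  have hq := (qpos (F := F))
  have hpt : ∀ f : Finset (Fin (n + 1)) → F, Hom k f →
      ((n : ℝ) + 1) ^ 2 * ((Fintype.card F / 2 : ℝ) *
        (((ann f).card : ℝ) / (Fintype.card F : ℝ) ^ (n + 1))) +
        (-(((n : ℝ) + 1) ^ 2 * (Fintype.card F / 2 - 1 : ℝ))) * (if f = 0 then 1 else 0) ≤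
        ((pairs f).card : ℝ) := by
    intro f hf
    by_cases h0 : f = 0
    · have hp : pairs f = Finset.univ := by
        rw [pairs, Finset.filter_eq_self]
        intro p _
        rw [h0]
        exact mulL_zero_right _
      rw [if_pos h0, hp, h0, card_ann_zero, div_self (by positivity), Finset.card_univ,
        Fintype.card_prod, Fintype.card_fin]
      push_cast
      nlinarith
    · rw [if_neg h0, mul_zero, add_zero]
      have h := main_ineq hf h0 h2 (by rw [Fintype.card_fin]; omega)
      rw [Fintype.card_fun, Fintype.card_fin] at h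
      have h' : ((n : ℝ) + 1) ^ 2 * Fintype.card F * (ann f).card ≤
        2 * (Fintype.card F : ℝ) ^ (n + 1) * (pairs f).card := by exact_mod_cast h
      have hQ : 0 < (Fintype.card F : ℝ) ^ (n + 1) := by positivity
      have e : ((n : ℝ) + 1) ^ 2 * ((Fintype.card F / 2 : ℝ) *
        (((ann f).card : ℝ) / (Fintype.card F : ℝ) ^ (n + 1))) =
        (((n : ℝ) + 1) ^ 2 * Fintype.card F * (ann f).card) / (2 * (Fintype.card F : ℝ) ^ (n + 1)) := by
        field_simp
      rw [e, div_le_iff₀ (by positivity)]
      linarith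
  have h := E_mono hpt
  rw [E_add, E_mul, E_mul, E_mul, E_pairs, ← z_succ] at h
  change ((n : ℝ) + 1) ^ 2 * ((Fintype.card F / 2 : ℝ) * z F (n + 1) (k + 1)) +
    (-(((n : ℝ) + 1) ^ 2 * (Fintype.card F / 2 - 1 : ℝ))) * z F (n + 1) k ≤ _ at h
  have hz := z_nonneg (F := F) n k
  have hn : (0 : ℝ) < (n : ℝ) + 1 := by positivity
  have hn' : (0 : ℝ) < ((n : ℝ) + 1) ^ 2 := by positivity
  have h5 : ((n : ℝ) + 1) ^ 2 * ((Fintype.card F / 2 : ℝ) * z F (n + 1) (k + 1)) ≤
      ((n : ℝ) + 1) ^ 2 * ((Fintype.card F / 2 - 1 : ℝ) * z F (n + 1) k + z F n k + 1 / (n + 1)) := by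
    have e : ((n : ℝ) + 1) ^ 2 * (1 / ((n : ℝ) + 1)) = (n : ℝ) + 1 := by
      field_simp
    rw [mul_add (((n : ℝ) + 1) ^ 2) _ (1 / ((n : ℝ) + 1)), e]
    nlinarith
  exact le_of_mul_le_mul_left h5 hn'

end expectation

end Pool.Agent.N428.Per
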