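import Mathlib
import Pool.Agent.N428.Per.Alg
import Pool.Agent.N428.Per.Prob

namespace Pool.Agent.N428.Per

open Finset Filter Topology

section analysis

/-- one step of the recursion -/
lemma step_limit {κ c : ℝ} (hκ : 1 < κ) {x y : ℕ → ℝ}
    (hrec : ∀ k, κ * x (k + 1) ≤ x k + (κ - 1) * y k + 1 / ((k : ℝ) + 1))
    (hy : ∀ η : ℝ, 0 < η → ∀ᶠ k in atTop, y k ≤ c + η) :
    ∀ η : ℝ, 0 < η → ∀ᶠ k in atTop, x k ≤ c + η := by
  intro η hη
  have h1 : ∀ᶠ k : ℕ in atTop, 1 / ((k : ℝ) + 1) ≤ (κ - 1) * (η / 4) := by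
    have ht : Tendsto (fun k : ℕ => 1 / ((k : ℝ) + 1)) atTop (𝓝 0) :=
      tendsto_one_div_add_atTop_nhds_zero_nat
    have hpos : 0 < (κ - 1) * (η / 4) := by
      apply mul_pos <;> linarith
    exact (ht.eventually (gt_mem_nhds hpos)).mono (fun k hk => le_of_lt hk)
  obtain ⟨K, hK⟩ := eventually_atTop.1 ((hy (η / 4) (by linarith)).and h1)
  set u : ℕ → ℝ := fun k => x k - c - η / 2 with hu
  have hstep : ∀ k, K ≤ k → κ * u (k + 1) ≤ u k := by
    intro k hk
    obtain ⟨ha, hb⟩ := hK k hk
    have hr := hrec k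
    have h2 : (κ - 1) * y k ≤ (κ - 1) * (c + η / 4) :=
      mul_le_mul_of_nonneg_left ha (by linarith)
    simp only [hu]
    nlinarith
  have hpow : ∀ j, κ ^ j * u (K + j) ≤ u K := by
    intro j
    induction j with
    | zero => simp
    | succ j ih =>
      have h3 := hstep (K + j) (Nat.le_add_right _ _)
      have hp : 0 < κ ^ j := pow_pos (by linarith) j
      calc κ ^ (j + 1) * u (K + (j + 1)) = κ ^ j * (κ * u (K + j + 1)) := by
            rw [pow_succ, ← add_assoc]; ring
        _ ≤ κ ^ j * u (K + j) := mul_le_mul_of_nonneg_left h3 hp.le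
        _ ≤ u K := ih
  have hev : ∀ᶠ j : ℕ in atTop, u K / (η / 2) ≤ κ ^ j :=
    (tendsto_pow_atTop_atTop_of_one_lt hκ).eventually_ge_atTop _
  obtain ⟨J, hJ⟩ := eventually_atTop.1 hev
  refine eventually_atTop.2 ⟨K + J, fun k hk => ?_⟩
  obtain ⟨j, rfl⟩ : ∃ j, k = K + j := ⟨k - K, by omega⟩
  have hj := hJ j (by omega)
  have hp : 0 < κ ^ j := pow_pos (by linarith) j
  rw [div_le_iff₀ (by linarith)] at hj
  have h4 : κ ^ j * u (K + j) ≤ κ ^ j * (η / 2) := (hpow j).trans hj
  have h5 := le_of_mul_le_mul_left h4 hp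
  simp only [hu] at h5
  linarith

end analysis

section main

variable {F : Type*} [Field F] [Fintype F] [DecidableEq F]

lemma z_limit_aux (h2 : (2 : F) ≠ 0) (h3 : 3 ≤ Fintype.card F) (D : ℕ) :
    ∀ e : ℕ, ∀ δ : ℕ, 1 ≤ δ → δ + e = D → ∀ η : ℝ, 0 < η → ∀ᶠ k in atTop,
      z F (k + δ) k ≤ 1 / (Fintype.card F : ℝ) ^ D + η := by
  have h3' : (3 : ℝ) ≤ Fintype.card F := by exact_mod_cast h3
  have hq := (qpos (F := F))
  intro e
  induction e with
  | zero =>
    intro δ _ hD η hη
    refine Eventually.of_forall (fun k => ?_)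
    have h := z_bound (F := F) (by linarith) (k + δ) k
    have e1 : (Fintype.card F : ℝ) ^ k / (Fintype.card F : ℝ) ^ (k + δ) =
        1 / (Fintype.card F : ℝ) ^ D := by
      rw [← hD, add_zero, pow_add]
      field_simp
    rw [e1] at h
    linarith
  | succ e ih =>
    intro δ hδ hD
    apply step_limit (κ := (Fintype.card F : ℝ) / 2) (y := fun k => z F (k + (δ + 1)) k)
      (by linarith) ?_ (ih (δ + 1) (by omega) (by omega))
    intro k
    have h := z_rec h2 (k + δ) k (by omega)
    have e1 : k + 1 + δ = k + δ + 1 := by omega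
    have e2 : k + (δ + 1) = k + δ + 1 := by omega
    simp only [e1, e2]
    have h4 : 1 / (((k + δ : ℕ) : ℝ) + 1) ≤ 1 / ((k : ℝ) + 1) := by
      apply one_div_le_one_div_of_le (by positivity)
      push_cast
      have : (0 : ℝ) ≤ δ := Nat.cast_nonneg δ
      linarith
    linarith

lemma z_limit (h2 : (2 : F) ≠ 0) (h3 : 3 ≤ Fintype.card F) :
    Tendsto (fun k : ℕ => z F (k + 1) k) atTop (𝓝 0) := by
  have h3' : (3 : ℝ) ≤ Fintype.card F := by exact_mod_cast h3
  have hq := (qpos (F := F))
  rw [Metric.tendsto_atTop']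
  intro ε hε
  obtain ⟨D, hD⟩ : ∃ D : ℕ, 1 / (Fintype.card F : ℝ) ^ D < ε / 2 := by
    obtain ⟨D, hD⟩ := exists_pow_lt_of_lt_one (show 0 < ε / 2 by linarith)
      (show 1 / (Fintype.card F : ℝ) < 1 by rw [div_lt_one hq]; linarith)
    exact ⟨D, by rwa [one_div_pow] at hD⟩
  have hD' : 1 / (Fintype.card F : ℝ) ^ (D + 1) < ε / 2 := by
    refine lt_of_le_of_lt ?_ hD
    apply one_div_le_one_div_of_le (by positivity)
    exact pow_le_pow_right₀ (by linarith) (Nat.le_succ D)
  obtain ⟨K, hK⟩ := eventually_atTop.1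
    (z_limit_aux h2 h3 (D + 1) D 1 le_rfl (by omega) (ε / 2) (by linarith))
  refine ⟨K, fun k hk => ?_⟩
  rw [Real.dist_eq, sub_zero, abs_of_nonneg (z_nonneg _ _)]
  have := hK k (le_of_lt hk)
  linarith

/-- the product of the linear forms given by the rows of `M` -/
def prodL {n : ℕ} : (k : ℕ) → (Fin k → Fin n → F) → (Finset (Fin n) → F)
  | 0, _ => unit
  | k + 1, M => mulL (M 0) (prodL k (fun i => M i.succ))

lemma E_eq (n k : ℕ) (g : (Finset (Fin n) → F) → ℝ) :
    E n k g = (∑ M : Fin k → Fin n → F, g (prodL k M)) / ((Fintype.card F : ℝ) ^ n) ^ k := by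
  induction k generalizing g with
  | zero =>
    show g unit = _
    simp [prodL]
  | succ k ih =>
    show E n k _ = _
    rw [ih, ← (Fin.consEquiv (fun _ => Fin n → F)).sum_comp, Fintype.sum_prod_type,
      Finset.sum_comm]
    have hq := (qpos (F := F))
    have e : ∀ M : Fin k → Fin n → F, ∀ l : Fin n → F,
        g (prodL (k + 1) ((Fin.consEquiv (fun _ => Fin n → F)) (l, M))) =
          g (mulL l (prodL k M)) := by
      intro M l
      rfl
    simp only [e]
    rw [← Finset.sum_div, pow_succ, div_div, mul_comm]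

omit [Fintype F] [DecidableEq F] in
lemma prodL_eq {n : ℕ} (k : ℕ) (M : Fin k → Fin n → F) (S : Finset (Fin n)) :
    prodL k M S = ∑ τ : Fin k → Fin n,
      if (Function.Injective τ ∧ Finset.univ.image τ = S) then ∏ j, M j (τ j) else 0 := by
  induction k generalizing S with
  | zero =>
    show unit S = _
    rw [Fintype.sum_unique]
    simp only [unit, Finset.univ_eq_empty, Finset.image_empty, Finset.prod_empty]
    by_cases h : S = ∅
    · subst h
      rw [if_pos rfl, if_pos ⟨Function.injective_of_subsingleton _, rfl⟩]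
    · rw [if_neg h, if_neg (fun h' => h h'.2.symm)]
  | succ k ih =>
    show mulL (M 0) (prodL k (fun i => M i.succ)) S = _
    rw [mulL_apply, ← (Fin.consEquiv (fun _ => Fin n)).sum_comp, Fintype.sum_prod_type]
    rw [← Finset.sum_subset (Finset.subset_univ S)]
    · refine Finset.sum_congr rfl (fun i hi => ?_)
      rw [ih, Finset.mul_sum]
      refine Finset.sum_congr rfl (fun τ _ => ?_)
      have hcond : (Function.Injective ((Fin.consEquiv (fun _ => Fin n)) (i, τ)) ∧
          Finset.univ.image ((Fin.consEquiv (fun _ => Fin n)) (i, τ)) = S) ↔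
          (Function.Injective τ ∧ Finset.univ.image τ = S.erase i) := by
        show (Function.Injective (Fin.cons i τ : Fin (k + 1) → Fin n) ∧
          Finset.univ.image (Fin.cons i τ : Fin (k + 1) → Fin n) = S) ↔ _
        rw [Fin.cons_injective_iff]
        have himg : Finset.univ.image (Fin.cons i τ : Fin (k + 1) → Fin n) =
            insert i (Finset.univ.image τ) := by
          ext x
          simp only [Finset.mem_image, Finset.mem_univ, true_and, Finset.mem_insert]
          constructor
          · rintro ⟨j, hj⟩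
            refine Fin.cases (fun hj => ?_) (fun j hj => ?_) j hj
            · left; simpa using hj.symm
            · right; exact ⟨j, by simpa using hj⟩
          · rintro (h | ⟨j, hj⟩)
            · exact ⟨0, by simp [h]⟩
            · exact ⟨j.succ, by simpa using hj⟩
        rw [himg]
        constructor
        · rintro ⟨⟨h1, h2⟩, h3⟩
          refine ⟨h2, ?_⟩
          rw [← h3, Finset.erase_insert]
          intro h4
          obtain ⟨j, _, hj⟩ := Finset.mem_image.1 h4
          exact h1 ⟨j, hj⟩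
        · rintro ⟨h1, h2⟩
          refine ⟨⟨?_, h1⟩, ?_⟩
          · rintro ⟨j, hj⟩
            have : i ∈ Finset.univ.image τ := Finset.mem_image.2 ⟨j, Finset.mem_univ _, hj⟩
            rw [h2] at this
            exact absurd this (Finset.notMem_erase i S)
          · rw [h2, Finset.insert_erase hi]
      by_cases hc : Function.Injective τ ∧ Finset.univ.image τ = S.erase i
      · rw [if_pos hc, if_pos (hcond.2 hc), Fin.prod_univ_succ]
        rfl
      · rw [if_neg hc, if_neg (fun h => hc (hcond.1 h)), mul_zero]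
    · intro i _ hi
      refine Finset.sum_eq_zero (fun τ _ => ?_)
      rw [if_neg]
      rintro ⟨_, h⟩
      apply hi
      rw [← h]
      exact Finset.mem_image.2 ⟨0, Finset.mem_univ _, rfl⟩

lemma prodL_univ {n : ℕ} (M : Fin n → Fin n → F) :
    prodL n M Finset.univ = (Matrix.of M).permanent := by
  rw [prodL_eq, ← Matrix.permanent_transpose, Matrix.permanent, ← Finset.sum_filter]
  symm
  refine Finset.sum_bij (fun (σ : Equiv.Perm (Fin n)) _ => (σ : Fin n → Fin n)) ?_ ?_ ?_ ?_
  · intro σ _
    rw [Finset.mem_filter]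
    exact ⟨Finset.mem_univ _, σ.injective, Finset.image_univ_of_surjective σ.surjective⟩
  · intro σ _ ρ _ h
    exact DFunLike.coe_injective h
  · intro τ hτ
    rw [Finset.mem_filter] at hτ
    have hb : Function.Bijective τ := Finite.injective_iff_bijective.1 hτ.2.1
    exact ⟨Equiv.ofBijective τ hb, Finset.mem_univ _, rfl⟩
  · intro σ _
    rfl

lemma card_top {m : ℕ} {f : Finset (Fin (m + 1)) → F} (hf : Hom m f) (hf0 : f ≠ 0) :
    Fintype.card F * (Finset.univ.filter (fun l : Fin (m + 1) → F => mulL l f univ = 0)).card =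
      Fintype.card F ^ (m + 1) := by
  obtain ⟨T, hT, hfT⟩ := hf.exists_ne hf0
  have hc : (Tᶜ).card = 1 := by
    rw [Finset.card_compl, hT, Fintype.card_fin]
    omega
  obtain ⟨j, hj⟩ := Finset.card_eq_one.1 hc
  have hTj : T = Finset.univ.erase j := by
    rw [← compl_compl T, hj]
    ext x
    simp
  have hfj : f (Finset.univ.erase j) ≠ 0 := by rwa [← hTj]
  rw [card_line (fun l : Fin (m + 1) → F => mulL l f univ = 0) (Pi.single j 1)]
  have h1 : ∀ v : Fin (m + 1) → F, (Finset.univ.filter
      (fun t : F => mulL (v + t • (Pi.single j 1 : Fin (m + 1) → F)) f univ = 0)).card = 1 := by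
    intro v
    rw [Finset.card_eq_one]
    refine ⟨-(mulL v f univ) / f (Finset.univ.erase j), ?_⟩
    ext t
    rw [Finset.mem_filter, Finset.mem_singleton, mulL_add, mulL_smul, Pi.add_apply, Pi.smul_apply,
      mulL_single, if_pos (Finset.mem_univ _), smul_eq_mul, eq_div_iff hfj]
    constructor
    · rintro ⟨_, h⟩
      linear_combination h
    · intro h
      exact ⟨Finset.mem_univ _, by linear_combination h⟩
  rw [Finset.sum_congr rfl (fun v _ => h1 v), Finset.sum_const, Finset.card_univ, smul_eq_mul,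
    mul_one, Fintype.card_fun, Fintype.card_fin]

lemma prob_eq (m : ℕ) :
    (∑ M : Fin (m + 1) → Fin (m + 1) → F, if (Matrix.of M).permanent = 0 then (1 : ℝ) else 0) /
      ((Fintype.card F : ℝ) ^ (m + 1)) ^ (m + 1) =
      1 / Fintype.card F + (1 - 1 / Fintype.card F) * z F (m + 1) m := by
  have hq := (qpos (F := F))
  have e1 : (∑ M : Fin (m + 1) → Fin (m + 1) → F,
      if (Matrix.of M).permanent = 0 then (1 : ℝ) else 0) /
      ((Fintype.card F : ℝ) ^ (m + 1)) ^ (m + 1) =
      E (m + 1) (m + 1) (fun f : Finset (Fin (m + 1)) → F => if f univ = 0 then (1 : ℝ) else 0) := by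
    rw [E_eq]
    simp only [prodL_univ]
  rw [e1]
  show E (m + 1) m (fun f : Finset (Fin (m + 1)) → F =>
    (∑ l : Fin (m + 1) → F, if mulL l f univ = 0 then (1 : ℝ) else 0) /
      (Fintype.card F : ℝ) ^ (m + 1)) = _
  rw [z, ← E_mul, ← E_const (F := F) (n := m + 1) (k := m) (1 / (Fintype.card F : ℝ)), ← E_add]
  apply E_congr
  intro f hf
  have e2 : (∑ l : Fin (m + 1) → F, if mulL l f univ = 0 then (1 : ℝ) else 0) =
      ((Finset.univ.filter (fun l : Fin (m + 1) → F => mulL l f univ = 0)).card : ℝ) := by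
    rw [Finset.card_filter]
    push_cast
    rfl
  rw [e2]
  by_cases h0 : f = 0
  · rw [if_pos h0, E_const]
    have : (Finset.univ.filter (fun l : Fin (m + 1) → F => mulL l f univ = 0)) =
        Finset.univ := by
      rw [Finset.filter_eq_self]
      intro l _
      rw [h0, mulL_zero_right]
      rfl
    rw [this, Finset.card_univ, Fintype.card_fun, Fintype.card_fin]
    push_cast
    rw [div_self (by positivity)]
    ring
  · rw [if_neg h0, E_const, mul_zero, add_zero]
    have h := card_top hf h0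
    have h' : (Fintype.card F : ℝ) *
        ((Finset.univ.filter (fun l : Fin (m + 1) → F => mulL l f univ = 0)).card : ℝ) =
        (Fintype.card F : ℝ) ^ (m + 1) := by exact_mod_cast h
    rw [div_eq_div_iff (by positivity) (by positivity), ← h']
    ring

end main

end Pool.Agent.N428.Per
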